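import Pool.Agent.Helper75.PZ.Stmts2

set_option autoImplicit false

universe u

open Module

namespace Pool.Agent.Helper87.PZ

open Pool.Agent.Helper75.PZ

theorem sum_lemma {M : Type u} [Field M] (X Y : HS M) (γ : G2) (hX : γ ≤ X.order)
    (hY : γ ≤ Y.order) (h : (X + Y).coeff γ ≠ 0) :
    X + Y ≠ 0 ∧ (X + Y).order = γ ∧ (X + Y).leadingCoeff = (X + Y).coeff γ := by
  have hne : X + Y ≠ 0 := by
    intro h0
    rw [h0] at h
    simp at h
  have ho : (X + Y).order = γ :=
    le_antisymm (HahnSeries.order_le_of_coeff_ne_zero h)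
      (le_trans (le_min hX hY) (HahnSeries.min_order_le_order_add hne))
  refine ⟨hne, ho, ?_⟩
  rw [HahnSeries.leadingCoeff_eq, ho]

/-- the algebra has no zero divisors -/
theorem nzd (hGD : ST_GD.{u}) (F M : Type u) [Field F] [Field M] [Algebra F M] (σ : M ≃ₐ[F] M)
    (φ ψ : HS M →ₐ[F] HS M) (hφ : PHI σ φ) (hψ : PSI ψ) (hσ : ∀ m, σ (σ (σ m)) = m)
    (K : IntermediateField F (HS M)) (A : Type u) [Ring A] [Algebra K A]
    (E : A ≃ₗ[K] (Fin 6 → HS M)) (Φ : A →+* Module.End F (HS M))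
    (hE : ∀ a f, Φ a f = op φ ψ (E a) f) (x y : A) (hx : x ≠ 0) (hy : y ≠ 0) : x * y ≠ 0 := by
  have hne1 : ∀ a : A, a ≠ 0 → E a ≠ 0 := fun a ha => by
    rw [Ne, LinearEquiv.map_eq_zero_iff]
    exact ha
  have hne : ∀ a : A, a ≠ 0 → ∀ f : HS M, f ≠ 0 → Φ a f ≠ 0 := by
    intro a ha f hf
    rw [hE a f]
    exact (hGD F M σ φ ψ hφ hψ hσ (E a) (hne1 a ha) f hf).1
  intro h0
  have h1 : Φ (x * y) 1 = Φ x (Φ y 1) := by
    rw [map_mul]
    rfl
  have h2 := hne x hx _ (hne y hy 1 one_ne_zero)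
  rw [← h1, h0, map_zero] at h2
  exact h2 rfl

theorem st_SY (hGD : ST_GD.{u}) : ST_SY.{u} := by
  intro F M _ _ _ σ φ ψ h2 hφ hψ hσ K hK A _ _ E Φ hE hk
  have hne1 : ∀ a : A, a ≠ 0 → E a ≠ 0 := fun a ha => by
    rw [Ne, LinearEquiv.map_eq_zero_iff]
    exact ha
  have key : ∀ a : A, a ≠ 0 → ∀ f : HS M, f ≠ 0 →
      Φ a f ≠ 0 ∧ (Φ a f).order = (Φ a 1).order + f.order ∧
      (Φ a f).leadingCoeff = (Φ a 1).leadingCoeff *
        (-1 : M) ^ (n1 ((Φ a 1).order) * n2 (f.order)) *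
        (σ ^ (n1 ((Φ a 1).order))) f.leadingCoeff := by
    intro a ha f hf
    rw [hE a f, hE a 1]
    exact hGD F M σ φ ψ hφ hψ hσ (E a) (hne1 a ha) f hf
  have hne : ∀ a : A, a ≠ 0 → Φ a 1 ≠ 0 := fun a ha => (key a ha 1 one_ne_zero).1
  have hmul : ∀ x y : A, Φ (x * y) 1 = Φ x (Φ y 1) := by
    intro x y
    rw [map_mul]
    rfl
  have hadd : ∀ x y : A, Φ (x + y) 1 = Φ x 1 + Φ y 1 := by
    intro x y
    rw [map_add]
    rfl
  have hzero : ∀ x : A, Φ x 1 ≠ 0 → x ≠ 0 := by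
    intro x hx h0
    apply hx
    rw [h0, map_zero]
    rfl
  refine ⟨?_, ?_, ?_, ?_, ?_, ?_, ?_, ?_, ?_⟩
  · intro x hx
    exact HahnSeries.leadingCoeff_ne_zero.2 (hne x hx)
  · intro x y hx hy
    exact mul_ne_zero hx hy
  · intro x y hx hy
    show (Φ (x * y) 1).order = _
    rw [hmul]
    exact (key x hx _ (hne y hy)).2.1
  · intro x y hx hy
    show (Φ (x * y) 1).leadingCoeff = _
    rw [hmul]
    exact (key x hx _ (hne y hy)).2.2
  · intro x y hx hy hxy
    have hxy' : (Φ x 1).order < (Φ y 1).order := hxy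
    have hc : (Φ x 1 + Φ y 1).coeff (Φ x 1).order = (Φ x 1).leadingCoeff := by
      rw [HahnSeries.coeff_add, HahnSeries.coeff_eq_zero_of_lt_order hxy', add_zero,
        HahnSeries.leadingCoeff_eq]
    have h := sum_lemma (Φ x 1) (Φ y 1) (Φ x 1).order le_rfl hxy'.le
      (by rw [hc]; exact HahnSeries.leadingCoeff_ne_zero.2 (hne x hx))
    rw [hc, ← hadd] at h
    exact ⟨hzero _ h.1, h.2.1, h.2.2⟩
  · intro x y hx hy hxy hs
    have hxy' : (Φ x 1).order = (Φ y 1).order := hxy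
    have hs' : (Φ x 1).leadingCoeff + (Φ y 1).leadingCoeff ≠ 0 := hs
    have hc : (Φ x 1 + Φ y 1).coeff (Φ x 1).order =
        (Φ x 1).leadingCoeff + (Φ y 1).leadingCoeff := by
      rw [HahnSeries.coeff_add, HahnSeries.leadingCoeff_eq, HahnSeries.leadingCoeff_eq, hxy']
    have h := sum_lemma (Φ x 1) (Φ y 1) (Φ x 1).order le_rfl hxy'.le (by rw [hc]; exact hs')
    rw [hc, ← hadd] at h
    exact ⟨hzero _ h.1, h.2.1, h.2.2⟩
  · intro x y hx hy hxy hs
    have hxy' : (Φ x 1).order = (Φ y 1).order := hxy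
    have hs' : (Φ x 1).leadingCoeff + (Φ y 1).leadingCoeff = 0 := hs
    by_cases h0 : x + y = 0
    · exact Or.inl h0
    · right
      show (Φ x 1).order < (Φ (x + y) 1).order
      have h1 := hne _ h0
      have hc : (Φ (x + y) 1).coeff (Φ x 1).order = 0 := by
        rw [hadd, HahnSeries.coeff_add]
        rw [HahnSeries.leadingCoeff_eq, HahnSeries.leadingCoeff_eq, ← hxy'] at hs'
        exact hs'
      have hle : (Φ x 1).order ≤ (Φ (x + y) 1).order := by
        rw [hadd] at h1 ⊢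
        exact le_trans (le_min le_rfl hxy'.le) (HahnSeries.min_order_le_order_add h1)
      rcases hle.lt_or_eq with h | h
      · exact h
      · exfalso
        rw [h] at hc
        exact h1 (HahnSeries.coeff_order_eq_zero.1 hc)
  · intro r hr
    have h1 : Φ (algebraMap K A (algebraMap F K r)) 1 =
        HahnSeries.single (0 : G2) (algebraMap F M r) := by
      rw [hk, mul_one]
      have h3 : ((algebraMap F K r : K) : HS M) = algebraMap F (HS M) r := rfl
      rw [h3, AlgHom.commutes]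
      rfl
    have hr' : algebraMap F M r ≠ 0 := by
      rw [Ne, map_eq_zero]
      exact hr
    show (Φ (algebraMap K A (algebraMap F K r)) 1).order = 0 ∧
      (Φ (algebraMap K A (algebraMap F K r)) 1).leadingCoeff = _
    rw [h1]
    exact ⟨HahnSeries.order_single hr', HahnSeries.leadingCoeff_of_single⟩
  · intro k hk0
    have h1 : Φ (algebraMap K A k) 1 = ψ (k : HS M) := by
      rw [hk, mul_one]
    show 6 ∣ n1 (Φ (algebraMap K A k) 1).order ∧ 2 ∣ n2 (Φ (algebraMap K A k) 1).order ∧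
      σ (Φ (algebraMap K A k) 1).leadingCoeff = (Φ (algebraMap K A k) 1).leadingCoeff
    rw [h1]
    have hkne : (k : HS M) ≠ 0 := by
      intro h
      apply hk0
      exact Subtype.ext h
    have hψk : ψ (k : HS M) ≠ 0 := by
      rw [Ne, map_eq_zero]
      exact hkne
    have hfix : φ (k : HS M) = (k : HS M) := (hK _).1 k.2
    set γ' : G2 := (ψ (k : HS M)).order with hγ'
    have hco : (ψ (k : HS M)).coeff γ' ≠ 0 := fun h => hψk (HahnSeries.coeff_order_eq_zero.1 h)
    have h6 : 6 ∣ n1 γ' := by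
      by_contra h
      exact hco (hψ.2 (k : HS M) γ' h)
    obtain ⟨q, hq⟩ := h6
    have hγ1 : (ψ (k : HS M)).coeff γ' = (k : HS M).coeff (toLex (q, n2 γ')) :=
      hψ.1 (k : HS M) (toLex (q, n2 γ')) γ' hq rfl
    have hφγ : (k : HS M).coeff (toLex (q, n2 γ')) =
        (-1 : M) ^ (n2 γ') * σ ((k : HS M).coeff (toLex (q, n2 γ'))) := by
      conv_lhs => rw [← hfix]
      exact hφ (k : HS M) (toLex (q, n2 γ'))
    have hl : (ψ (k : HS M)).leadingCoeff = (k : HS M).coeff (toLex (q, n2 γ')) := by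
      rw [HahnSeries.leadingCoeff_eq]
      exact hγ1
    rw [hγ1] at hco
    rw [hl]
    set m : M := (k : HS M).coeff (toLex (q, n2 γ')) with hm
    rcases Int.even_or_odd (n2 γ') with he | ho
    · rw [he.neg_one_zpow, one_mul] at hφγ
      exact ⟨⟨q, hq⟩, even_iff_two_dvd.1 he, hφγ.symm⟩
    · exfalso
      rw [ho.neg_one_zpow] at hφγ
      have e1 : σ m = -m := by
        linear_combination hφγ
      have e2 : σ (σ m) = m := by rw [e1, map_neg, e1, neg_neg]
      have e3 : σ (σ (σ m)) = -m := by rw [e2, e1]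
      rw [hσ] at e3
      have e4 : (2 : M) * m = 0 := by linear_combination e3
      rcases mul_eq_zero.1 e4 with h | h
      · apply h2
        have : algebraMap F M 2 = 0 := by rw [map_ofNat]; exact h
        exact (map_eq_zero _).1 this
      · exact hco h

end Pool.Agent.Helper87.PZ
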